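import Mathlib

set_option autoImplicit false

namespace Pool.Agent.KS7_39.D49

open Filter Topology Metric

variable {𝕜 : Type} [RCLike 𝕜] {E : Type} [NormedAddCommGroup E] [NormedSpace 𝕜 E]

/-- bounded sequences of functionals converging to zero on a dense sequence converge to zero -/
lemma tendsto_zero_of_dense (h : ℕ → E →L[𝕜] 𝕜) (D : ℝ) (hD : ∀ n, ‖h n‖ ≤ D) (u : ℕ → E)
    (hu : DenseRange u) (hk : ∀ k, Tendsto (fun n => h n (u k)) atTop (𝓝 0)) (z : E) :
    Tendsto (fun n => h n z) atTop (𝓝 0) := by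
  have hD0 : 0 ≤ D := (norm_nonneg _).trans (hD 0)
  rw [Metric.tendsto_atTop]
  intro ε hε
  obtain ⟨k, hk1⟩ := hu.exists_dist_lt z (show 0 < ε / (2 * (D + 1)) by positivity)
  obtain ⟨N, hN⟩ := Metric.tendsto_atTop.1 (hk k) (ε / 2) (by positivity)
  refine ⟨N, fun n hn => ?_⟩
  have h1 := hN n hn
  rw [dist_zero_right] at h1 ⊢
  have h2 : h n z = h n (u k) + h n (z - u k) := by rw [← map_add]; congr 1; abel
  rw [dist_eq_norm] at hk1
  have h3 : ‖h n (z - u k)‖ ≤ D * (ε / (2 * (D + 1))) :=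
    ((h n).le_of_opNorm_le (hD n) _).trans (mul_le_mul_of_nonneg_left hk1.le hD0)
  have h4 : D * (ε / (2 * (D + 1))) ≤ ε / 2 := by
    rw [mul_div_assoc', div_le_div_iff₀ (by positivity) (by positivity)]
    nlinarith
  calc ‖h n z‖ ≤ ‖h n (u k)‖ + ‖h n (z - u k)‖ := by rw [h2]; exact norm_add_le _ _
    _ < ε := by linarith

/-- weak-star null extension (Veech's proof of Sobczyk's theorem) -/
lemma exists_wnull [TopologicalSpace.SeparableSpace E] (x : ℕ → E) (f : ℕ → E →L[𝕜] 𝕜)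
    (hf : ∀ i j, f i (x j) = if i = j then 1 else 0) (D : ℝ) (hD : ∀ n, ‖f n‖ ≤ D) :
    ∃ g : ℕ → E →L[𝕜] 𝕜, (∀ i j, g i (x j) = if i = j then 1 else 0) ∧
      (∀ n, ‖g n‖ ≤ 2 * D) ∧ ∀ z, Tendsto (fun n => g n z) atTop (𝓝 0) := by
  classical
  have hD0 : 0 ≤ D := (norm_nonneg _).trans (hD 0)
  obtain ⟨u, hu⟩ := TopologicalSpace.exists_dense_seq E
  let K : Set (E →L[𝕜] 𝕜) := {g | ‖g‖ ≤ D ∧ ∀ m, g (x m) = 0}
  have h0K : (0 : E →L[𝕜] 𝕜) ∈ K := ⟨by simpa using hD0, by simp⟩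
  let P : ℕ → ℕ → Prop := fun n m => ∃ g ∈ K, ∀ k ≤ m, ‖(f n - g) (u k)‖ < 1 / ((m : ℝ) + 1)
  have claim : ∀ m, ∀ᶠ n in atTop, P n m := by
    intro m
    by_contra hcon
    rw [Filter.not_eventually] at hcon
    obtain ⟨φ, hφ, hφ2⟩ := Filter.extraction_of_frequently_atTop hcon
    have hball : ∀ n, StrongDual.toWeakDual (f (φ n)) ∈
        (WeakDual.toStrongDual ⁻¹' closedBall (0 : StrongDual 𝕜 E) D) := by
      intro n
      rw [Set.mem_preimage, mem_closedBall, dist_zero_right]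
      exact hD _
    obtain ⟨g, hg, ψ, hψ, hlim⟩ := (WeakDual.isSeqCompact_closedBall 𝕜 E 0 D) hball
    have hev : ∀ z, Tendsto (fun n => f (φ (ψ n)) z) atTop (𝓝 (g z)) := by
      intro z
      exact ((WeakDual.eval_continuous z).tendsto g).comp hlim
    have hgK : WeakDual.toStrongDual g ∈ K := by
      refine ⟨?_, fun m' => ?_⟩
      · rw [Set.mem_preimage, mem_closedBall, dist_zero_right] at hg
        exact hg
      · refine tendsto_nhds_unique (hev (x m')) ?_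
        refine tendsto_atTop_of_eventually_const (i₀ := m' + 1) fun n hn => ?_
        rw [hf, if_neg]
        have h1 : n ≤ ψ n := hψ.id_le n
        have h2 : ψ n ≤ φ (ψ n) := hφ.id_le _
        omega
    have hev2 : ∀ᶠ n in atTop, ∀ k ≤ m, ‖f (φ (ψ n)) (u k) - g (u k)‖ < 1 / ((m : ℝ) + 1) := by
      have : ∀ᶠ n in atTop, ∀ k ∈ Set.Iic m,
          ‖f (φ (ψ n)) (u k) - g (u k)‖ < 1 / ((m : ℝ) + 1) := by
        rw [Filter.eventually_all_finite (Set.finite_Iic m)]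
        intro k _
        have := Metric.tendsto_nhds.1 (hev (u k)) (1 / ((m : ℝ) + 1)) (by positivity)
        simpa [dist_eq_norm] using this
      exact this
    obtain ⟨n, hn⟩ := hev2.exists
    exact hφ2 (ψ n) ⟨WeakDual.toStrongDual g, hgK, hn⟩
  let M : ℕ → ℕ := fun n => Nat.findGreatest (P n) n
  have hex : ∀ n, ∃ g ∈ K, P n 0 → ∀ k ≤ M n, ‖(f n - g) (u k)‖ < 1 / ((M n : ℝ) + 1) := by
    intro n
    by_cases h : P n 0
    · have h1 : P n (M n) := Nat.findGreatest_spec (P := P n) (Nat.zero_le n) h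
      obtain ⟨g, hg, hg2⟩ := h1
      exact ⟨g, hg, fun _ => hg2⟩
    · exact ⟨0, h0K, fun h' => absurd h' h⟩
  choose g hgK hg2 using hex
  refine ⟨fun n => f n - g n, fun i j => ?_, fun n => ?_, fun z => ?_⟩
  · rw [_root_.sub_apply, hf, (hgK i).2 j, sub_zero]
  · calc ‖f n - g n‖ ≤ ‖f n‖ + ‖g n‖ := norm_sub_le _ _
      _ ≤ 2 * D := by linarith [hD n, (hgK n).1]
  · refine tendsto_zero_of_dense (fun n => f n - g n) (2 * D) (fun n => ?_) u hu (fun k => ?_) z
    · calc ‖f n - g n‖ ≤ ‖f n‖ + ‖g n‖ := norm_sub_le _ _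
        _ ≤ 2 * D := by linarith [hD n, (hgK n).1]
    · rw [Metric.tendsto_atTop]
      intro ε hε
      obtain ⟨m₀, hm₀⟩ := exists_nat_one_div_lt hε
      obtain ⟨N₁, hN₁⟩ := Filter.eventually_atTop.1 (claim (max m₀ k))
      obtain ⟨N₂, hN₂⟩ := Filter.eventually_atTop.1 (claim 0)
      refine ⟨max (max N₁ N₂) (max m₀ k), fun n hn => ?_⟩
      have hn1 : N₁ ≤ n := (le_max_left _ _).trans ((le_max_left _ _).trans hn)
      have hn2 : N₂ ≤ n := (le_max_right _ _).trans ((le_max_left _ _).trans hn)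
      have hn3 : max m₀ k ≤ n := (le_max_right _ _).trans hn
      have hM : max m₀ k ≤ M n := Nat.le_findGreatest hn3 (hN₁ n hn1)
      have h1 := hg2 n (hN₂ n hn2) k ((le_max_right _ _).trans hM)
      rw [dist_zero_right]
      refine h1.trans (lt_of_le_of_lt ?_ hm₀)
      have h2 : (m₀ : ℝ) ≤ M n := by exact_mod_cast (le_max_left _ _).trans hM
      exact one_div_le_one_div_of_le (by positivity) (by linarith)

end Pool.Agent.KS7_39.D49
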