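import Mathlib
import Pool.Agent.KS7_39.D49.EX2

set_option autoImplicit false

namespace Pool.Agent.KS7_39.D49

open Filter Topology Metric Finset

/-- strong recursion with a predicate on the whole past -/
lemma exists_seq_strong {α : Type} [Nonempty α] (Q : (n : ℕ) → (Fin n → α) → α → Prop)
    (h : ∀ n (g : Fin n → α),
      (∀ i : Fin n, Q i (fun j : Fin i => g ⟨j, j.2.trans i.2⟩) (g i)) → ∃ a, Q n g a) :
    ∃ f : ℕ → α, ∀ n, Q n (fun j => f j) (f n) := by
  classical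
  let F : ℕ → α := WellFounded.fix Nat.lt_wfRel.wf
    (fun n ih => Classical.epsilon (Q n (fun j : Fin n => ih j j.2)))
  have hF : ∀ n, F n = Classical.epsilon (Q n (fun j : Fin n => F j)) := by
    intro n
    exact WellFounded.fix_eq _ _ n
  refine ⟨F, fun n => ?_⟩
  induction n using Nat.strong_induction_on with
  | _ n ih =>
    have h1 := Classical.epsilon_spec (h n (fun j => F j) (fun i => ih i i.2))
    rw [← hF] at h1
    exact h1

variable {𝕜 : Type} [RCLike 𝕜] {E : Type} [NormedAddCommGroup E] [NormedSpace 𝕜 E]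

/-- the data carried along -/
structure Dat (𝕜 E : Type) [RCLike 𝕜] [NormedAddCommGroup E] [NormedSpace 𝕜 E] where
  y : E
  v : E →L[𝕜] 𝕜
  A : ℕ
  B : ℕ

instance : Nonempty (Dat 𝕜 E) := ⟨⟨0, 0, 0, 0⟩⟩

structure Q (x : ℕ → E) (f : ℕ → E →L[𝕜] 𝕜) (D : ℝ) (z : ℕ → E) (n : ℕ)
    (g : Fin n → Dat 𝕜 E) (a : Dat 𝕜 E) : Prop where
  h1 : ∀ j, a.v (g j).y = 0
  h2 : ∀ j, (g j).v a.y = 0
  h3 : a.v a.y = 1
  h4 : ∀ m, a.v (x m) = 0
  h5 : n ≤ a.A
  h6 : ∀ j, (g j).B ≤ a.A
  h7 : ∀ k < a.A, f k a.y = 0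
  h8 : ∀ k, a.B ≤ k → ‖f k a.y‖ * ‖a.v‖ ≤ (1 / 2) ^ n
  h9 : ∀ k, a.A ≤ k → k < a.B → ‖f k a.y‖ * ‖a.v‖ ≤ 9 * D
  h10 : ∀ i, n = 2 * i + 1 → ‖a.y‖ ≤ 9 ∧ ‖a.v‖ ≤ 1
  h11 : ∀ i, n = 2 * i → z i ∈ cs (𝕜 := 𝕜) (Set.range x ∪ Set.range (fun j => (g j).y) ∪ {a.y})

lemma unmixed (x : ℕ → E) (C : ℝ) (hC : ∀ n, ‖x n‖ ≤ C)
    (hinf : ¬ FiniteDimensional 𝕜 (E ⧸ cs (𝕜 := 𝕜) (Set.range x)))
    (f : ℕ → E →L[𝕜] 𝕜) (hf : ∀ i j, f i (x j) = if i = j then 1 else 0) (D : ℝ)
    (hD : ∀ n, ‖f n‖ ≤ D) (hf0 : ∀ z, Tendsto (fun n => f n z) atTop (𝓝 0)) (z : ℕ → E) :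
    ∃ (y : ℕ → E) (v : ℕ → E →L[𝕜] 𝕜) (F : ℕ → E →L[𝕜] 𝕜),
      (∀ i j, v i (y j) = if i = j then 1 else 0) ∧ (∀ i m, v i (x m) = 0) ∧
      (∀ i, ‖y (2 * i + 1)‖ ≤ 9 ∧ ‖v (2 * i + 1)‖ ≤ 1) ∧
      (∀ k, z k ∈ cs (𝕜 := 𝕜) (Set.range x ∪ Set.range y)) ∧
      (∀ n m, F n (x m) = if n = m then 1 else 0) ∧ (∀ n j, F n (y j) = 0) ∧
      (∀ n, ‖F n‖ ≤ D + (2 + 9 * D)) := by
  classical
  have hD0 : 0 ≤ D := (norm_nonneg _).trans (hD 0)
  obtain ⟨s, hs⟩ := exists_seq_strong (Q x f D z) (by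
    intro n g hg
    -- biorthogonality of the past
    have hv : ∀ i j, (g i).v (g j).y = if i = j then 1 else 0 := by
      intro i j
      rcases lt_trichotomy i j with h | h | h
      · rw [if_neg h.ne]
        exact (hg j).h2 ⟨i, h⟩
      · subst h; rw [if_pos rfl]; exact (hg i).h3
      · rw [if_neg h.ne']
        exact (hg i).h1 ⟨j, h⟩
    have hvx : ∀ i m, (g i).v (x m) = 0 := fun i m => (hg i).h4 m
    set N : ℕ := max n (univ.sup fun j => (g j).B) with hN
    have hNn : n ≤ N := le_max_left _ _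
    have hNB : ∀ j, (g j).B ≤ N := fun j =>
      (le_sup (f := fun j => (g j).B) (mem_univ j)).trans (le_max_right _ _)
    rcases Nat.even_or_odd' n with ⟨i, hi | hi⟩
    · obtain ⟨d, w, M, hM, e1, e2, e3, e4, e5, e6, e7⟩ := bad_vec x hinf f hf hf0
        (fun j => (g j).y) (fun j => (g j).v) hv hvx N (z i) ((1 / 2) ^ n) (by positivity)
      exact ⟨⟨d, w, M, M⟩, e2, e3, e4, e1, hNn.trans hM, fun j => (hNB j).trans hM, e5, e6,
        fun k hk hk' => absurd hk' (not_lt.2 hk), fun i' hi' => by omega, fun i' hi' => by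
          have : i' = i := by omega
          subst this; exact e7⟩
    · obtain ⟨d, w, e1, e2, e3, e4, e5, e6, e7⟩ := good_vec x C hC hinf f hf D hD
        (fun j => (g j).y) (fun j => (g j).v) hv hvx N
      obtain ⟨M, hM⟩ := Metric.tendsto_atTop.1 (hf0 d) ((1 / 2) ^ n) (by positivity)
      refine ⟨⟨d, w, N, M⟩, e4, e5, e6, e3, hNn, hNB, e7, fun k hk => ?_, fun k _ _ => ?_,
        fun i' _ => ⟨e1, e2⟩, fun i' hi' => by omega⟩
      · have h1 := hM k hk
        rw [dist_zero_right] at h1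
        calc ‖f k d‖ * ‖w‖ ≤ (1 / 2) ^ n * 1 :=
              mul_le_mul h1.le e2 (norm_nonneg _) (by positivity)
          _ = (1 / 2) ^ n := mul_one _
      · calc ‖f k d‖ * ‖w‖ ≤ (D * 9) * 1 := by
              refine mul_le_mul ?_ e2 (norm_nonneg _) (by positivity)
              exact ((f k).le_of_opNorm_le (hD k) d).trans (mul_le_mul_of_nonneg_left e1 hD0)
          _ = 9 * D := by ring)
  have hv : ∀ i j, (s i).v (s j).y = if i = j then 1 else 0 := by
    intro i j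
    rcases lt_trichotomy i j with h | h | h
    · rw [if_neg h.ne]
      exact (hs j).h2 ⟨i, h⟩
    · subst h; rw [if_pos rfl]; exact (hs i).h3
    · rw [if_neg h.ne']
      exact (hs i).h1 ⟨j, h⟩
  refine ⟨fun i => (s i).y, fun i => (s i).v,
    fun n => f n - ∑ j ∈ range (n + 1), f n (s j).y • (s j).v, hv, fun i m => (hs i).h4 m,
    fun i => (hs (2 * i + 1)).h10 i rfl, fun k => ?_, fun n m => ?_, fun n j => ?_, fun n => ?_⟩
  · refine cs_mono ?_ ((hs (2 * k)).h11 k rfl)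
    rintro e ((he | ⟨j, rfl⟩) | he)
    · exact Or.inl he
    · exact Or.inr ⟨j, rfl⟩
    · rw [Set.mem_singleton_iff] at he
      exact Or.inr ⟨2 * k, he.symm⟩
  · rw [_root_.sub_apply, _root_.sum_apply, hf]
    rw [sum_eq_zero, sub_zero]
    intro j _
    rw [_root_.smul_apply, (hs j).h4, smul_zero]
  · rw [_root_.sub_apply, _root_.sum_apply]
    simp_rw [_root_.smul_apply, hv, smul_eq_mul, mul_ite, mul_one, mul_zero]
    rw [sum_ite_eq']
    by_cases hj : j ∈ range (n + 1)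
    · rw [if_pos hj, sub_self]
    · rw [if_neg hj, sub_zero]
      rw [mem_range, not_lt] at hj
      exact (hs j).h7 n (by have := (hs j).h5; omega)
  · refine (norm_sub_le _ _).trans (add_le_add (hD n) ?_)
    refine (norm_sum_le _ _).trans ?_
    have hterm : ∀ j ∈ range (n + 1), ‖f n (s j).y • (s j).v‖ ≤
        (1 / 2) ^ j + (if (s j).A ≤ n ∧ n < (s j).B then 9 * D else 0) := by
      intro j _
      rw [norm_smul]
      have hp : (0 : ℝ) ≤ (1 / 2) ^ j := by positivity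
      by_cases h1 : n < (s j).A
      · rw [(hs j).h7 n h1, norm_zero, zero_mul]
        split_ifs <;> positivity
      · by_cases h2 : n < (s j).B
        · rw [if_pos ⟨not_lt.1 h1, h2⟩]
          have := (hs j).h9 n (not_lt.1 h1) h2
          linarith
        · rw [if_neg (fun h => h2 h.2), add_zero]
          exact (hs j).h8 n (not_lt.1 h2)
    refine (sum_le_sum hterm).trans ?_
    rw [sum_add_distrib]
    refine add_le_add ?_ ?_
    · have := (summable_geometric_two).sum_le_tsum (range (n + 1)) (fun _ _ => by positivity)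
      rwa [tsum_geometric_two] at this
    · rw [← sum_filter, sum_const, nsmul_eq_mul]
      have hcard : ((range (n + 1)).filter fun j => (s j).A ≤ n ∧ n < (s j).B).card ≤ 1 := by
        rw [card_le_one]
        intro i hi j hj
        rw [mem_filter] at hi hj
        by_contra hne
        rcases lt_or_gt_of_ne hne with h | h
        · have := (hs j).h6 ⟨i, h⟩
          simp only at this
          omega
        · have := (hs i).h6 ⟨j, h⟩
          simp only at this
          omega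
      calc _ ≤ (1 : ℝ) * (9 * D) := by
            refine mul_le_mul_of_nonneg_right ?_ (by positivity)
            exact_mod_cast hcard
        _ = 9 * D := one_mul _

end Pool.Agent.KS7_39.D49
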