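import Mathlib

set_option autoImplicit false

namespace Pool.Agent.KS7_39.D49

open Finset

variable {𝕜 : Type} [RCLike 𝕜] {E : Type} [NormedAddCommGroup E] [NormedSpace 𝕜 E]

/-- annihilation passes to spans -/
lemma span_annih {S : Set E} {T : Set (E →L[𝕜] 𝕜)} (h : ∀ w ∈ T, ∀ e ∈ S, w e = 0)
    {w : E →L[𝕜] 𝕜} {e : E} (hw : w ∈ Submodule.span 𝕜 T) (he : e ∈ Submodule.span 𝕜 S) :
    w e = 0 := by
  have h1 : ∀ w ∈ T, w e = 0 := by
    intro w hwT
    induction he using Submodule.span_induction with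
    | mem e he => exact h w hwT e he
    | zero => exact map_zero w
    | add a b _ _ ha hb => rw [map_add, ha, hb, add_zero]
    | smul c a _ ha => rw [map_smul, ha, smul_zero]
  induction hw using Submodule.span_induction with
  | mem w hw => exact h1 w hw
  | zero => rfl
  | add a b _ _ ha hb => rw [_root_.add_apply, ha, hb, add_zero]
  | smul c a _ ha => rw [_root_.smul_apply, ha, smul_zero]

/-- mixing a bad pair with an infinite supply of good pairs -/
lemma mix (G : ℝ) (hG : 0 ≤ G) : ∀ (n : ℕ) (R : ℝ), R ≤ 4 * G * (11 / 10) ^ n →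
    ∀ (b : E) (b' : E →L[𝕜] 𝕜) (g : ℕ → E) (g' : ℕ → E →L[𝕜] 𝕜),
      ‖b‖ ≤ R → ‖b'‖ ≤ R → (∀ i, ‖g i‖ ≤ G ∧ ‖g' i‖ ≤ G) →
      b' b = 1 → (∀ i, b' (g i) = 0) → (∀ i, g' i b = 0) →
      (∀ i j, g' i (g j) = if i = j then 1 else 0) →
      ∃ (κ : Type) (_ : Countable κ) (e : κ → E) (e' : κ → E →L[𝕜] 𝕜),
        (∀ i j, (i = j → e' i (e j) = 1) ∧ (i ≠ j → e' i (e j) = 0)) ∧
        (∀ i, ‖e i‖ ≤ 4 * G ∧ ‖e' i‖ ≤ 4 * G) ∧
        (∀ i, e i ∈ Submodule.span 𝕜 ({b} ∪ Set.range g)) ∧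
        (∀ i, e' i ∈ Submodule.span 𝕜 ({b'} ∪ Set.range g')) ∧
        b ∈ Submodule.span 𝕜 (Set.range e) ∧ ∀ i, g i ∈ Submodule.span 𝕜 (Set.range e) := by
  classical
  -- the case of a pair which is already good
  have base : ∀ (b : E) (b' : E →L[𝕜] 𝕜) (g : ℕ → E) (g' : ℕ → E →L[𝕜] 𝕜),
      ‖b‖ ≤ 4 * G → ‖b'‖ ≤ 4 * G → (∀ i, ‖g i‖ ≤ G ∧ ‖g' i‖ ≤ G) →
      b' b = 1 → (∀ i, b' (g i) = 0) → (∀ i, g' i b = 0) →
      (∀ i j, g' i (g j) = if i = j then 1 else 0) →
      ∃ (κ : Type) (_ : Countable κ) (e : κ → E) (e' : κ → E →L[𝕜] 𝕜),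
        (∀ i j, (i = j → e' i (e j) = 1) ∧ (i ≠ j → e' i (e j) = 0)) ∧
        (∀ i, ‖e i‖ ≤ 4 * G ∧ ‖e' i‖ ≤ 4 * G) ∧
        (∀ i, e i ∈ Submodule.span 𝕜 ({b} ∪ Set.range g)) ∧
        (∀ i, e' i ∈ Submodule.span 𝕜 ({b'} ∪ Set.range g')) ∧
        b ∈ Submodule.span 𝕜 (Set.range e) ∧ ∀ i, g i ∈ Submodule.span 𝕜 (Set.range e) := by
    intro b b' g g' hb hb' hg h1 h2 h3 h4
    refine ⟨Option ℕ, inferInstance, fun o => o.elim b g, fun o => o.elim b' g', ?_, ?_, ?_, ?_,
      ?_, ?_⟩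
    · rintro (_ | i) (_ | j)
      · exact ⟨fun _ => h1, fun h => absurd rfl h⟩
      · exact ⟨fun h => by simp at h, fun _ => h2 j⟩
      · exact ⟨fun h => by simp at h, fun _ => h3 i⟩
      · refine ⟨fun h => ?_, fun h => ?_⟩
        · simp only [Option.elim_some]
          rw [h4, if_pos (Option.some.inj h)]
        · simp only [Option.elim_some]
          rw [h4, if_neg (fun h' => h (by rw [h']))]
    · rintro (_ | i)
      · exact ⟨hb, hb'⟩
      · exact ⟨(hg i).1.trans (by linarith), (hg i).2.trans (by linarith)⟩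
    · rintro (_ | i)
      · exact Submodule.subset_span (Or.inl rfl)
      · exact Submodule.subset_span (Or.inr ⟨i, rfl⟩)
    · rintro (_ | i)
      · exact Submodule.subset_span (Or.inl rfl)
      · exact Submodule.subset_span (Or.inr ⟨i, rfl⟩)
    · exact Submodule.subset_span ⟨none, rfl⟩
    · exact fun i => Submodule.subset_span ⟨some i, rfl⟩
  intro n
  induction n with
  | zero =>
    intro R hR b b' g g' hb hb' hg h1 h2 h3 h4
    rw [pow_zero, mul_one] at hR
    exact base b b' g g' (hb.trans hR) (hb'.trans hR) hg h1 h2 h3 h4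
  | succ n ih =>
    intro R hR b b' g g' hb hb' hg h1 h2 h3 h4
    by_cases hRG : R ≤ 4 * G
    · exact base b b' g g' (hb.trans hRG) (hb'.trans hRG) hg h1 h2 h3 h4
    push Not at hRG
    -- the scalar
    set c : 𝕜 := (((√2)⁻¹ : ℝ) : 𝕜) with hc
    have hs2 : (0 : ℝ) < √2 := by positivity
    have hs2' : √2 * √2 = 2 := Real.mul_self_sqrt (by norm_num)
    have hcc : c * c = 1 / 2 := by
      rw [hc, ← RCLike.ofReal_mul, ← mul_inv, hs2']
      push_cast; norm_num
    have hcn : ‖c‖ = (√2)⁻¹ := by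
      rw [hc, RCLike.norm_ofReal, abs_of_pos (inv_pos.2 hs2)]
    have h14 : (14 : ℝ) / 10 ≤ √2 := by
      apply Real.le_sqrt_of_sq_le; norm_num
    have hcle : (√2)⁻¹ ≤ 10 / 14 := by
      rw [inv_le_comm₀ hs2 (by norm_num)]; norm_num; linarith
    have hcnn : 0 ≤ (√2)⁻¹ := by positivity
    -- new radius
    set R' : ℝ := (10 / 14) * (R + G) with hR'
    have hR'1 : R' ≤ 4 * G * (11 / 10) ^ n := by
      rw [pow_succ] at hR
      have : R' ≤ R / (11 / 10) := by
        rw [hR']; linarith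
      refine this.trans ?_
      rw [div_le_iff₀ (by norm_num)]
      linarith
    have key : ∀ (s : 𝕜), s * s = 1 → ‖s‖ = 1 →
        ∀ ρ : ℕ → ℕ, Function.Injective ρ → (∀ i, ρ i ≠ 0) →
        ∃ (κ : Type) (_ : Countable κ) (e : κ → E) (e' : κ → E →L[𝕜] 𝕜),
        (∀ i j, (i = j → e' i (e j) = 1) ∧ (i ≠ j → e' i (e j) = 0)) ∧
        (∀ i, ‖e i‖ ≤ 4 * G ∧ ‖e' i‖ ≤ 4 * G) ∧
        (∀ i, e i ∈ Submodule.span 𝕜 ({c • (b + s • g 0)} ∪ Set.range fun i => g (ρ i))) ∧
        (∀ i, e' i ∈ Submodule.span 𝕜 ({c • (b' + s • g' 0)} ∪ Set.range fun i => g' (ρ i))) ∧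
        c • (b + s • g 0) ∈ Submodule.span 𝕜 (Set.range e) ∧
        ∀ i, g (ρ i) ∈ Submodule.span 𝕜 (Set.range e) := by
      intro s hss hsn ρ hρ hρ0
      refine ih R' hR'1 (c • (b + s • g 0)) (c • (b' + s • g' 0)) (fun i => g (ρ i))
        (fun i => g' (ρ i)) ?_ ?_ (fun i => hg _) ?_ (fun i => ?_) (fun i => ?_) (fun i j => ?_)
      · rw [norm_smul, hcn, hR']
        refine mul_le_mul hcle ?_ (norm_nonneg _) (by norm_num)
        refine (norm_add_le _ _).trans (add_le_add hb ?_)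
        rw [norm_smul, hsn, one_mul]; exact (hg 0).1
      · rw [norm_smul, hcn, hR']
        refine mul_le_mul hcle ?_ (norm_nonneg _) (by norm_num)
        refine (norm_add_le _ _).trans (add_le_add hb' ?_)
        rw [norm_smul, hsn, one_mul]; exact (hg 0).2
      · rw [_root_.smul_apply, _root_.add_apply, _root_.smul_apply, map_smul, map_smul, map_add,
          map_add, map_smul, map_smul, h1, h2, h3, h4, if_pos rfl]
        simp only [smul_eq_mul, mul_zero, add_zero, mul_one, zero_add]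
        calc c * (c + s * (c * s)) = (c * c) * (1 + s * s) := by ring
          _ = 1 := by rw [hcc, hss]; norm_num
      · rw [_root_.smul_apply, _root_.add_apply, _root_.smul_apply, h2, h4,
          if_neg (hρ0 i).symm]
        simp
      · rw [map_smul, map_add, map_smul, h3, h4, if_neg (hρ0 i)]
        simp
      · rw [h4]
        exact if_congr hρ.eq_iff rfl rfl
    -- cross annihilation on generators
    have cross : ∀ (s : 𝕜), s * s = 1 → ∀ ρ ρ' : ℕ → ℕ, (∀ i, ρ i ≠ 0) → (∀ i, ρ' i ≠ 0) →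
        (∀ i j, ρ i ≠ ρ' j) →
        ∀ w ∈ ({c • (b' + s • g' 0)} ∪ Set.range fun i => g' (ρ i) : Set (E →L[𝕜] 𝕜)),
        ∀ a ∈ ({c • (b + (-s) • g 0)} ∪ Set.range fun i => g (ρ' i) : Set E), w a = 0 := by
      intro s hss ρ ρ' hρ0 hρ0' hρρ w hw a ha
      rcases hw with hw | ⟨i, rfl⟩ <;> rcases ha with ha | ⟨j, rfl⟩
      · rw [Set.mem_singleton_iff] at hw ha
        subst hw; subst ha
        rw [_root_.smul_apply, _root_.add_apply, _root_.smul_apply, map_smul, map_smul, map_add,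
          map_add, map_smul, map_smul, h1, h2, h3, h4, if_pos rfl]
        simp only [smul_eq_mul, mul_zero, add_zero, mul_one, zero_add]
        calc c * (c + s * (c * -s)) = (c * c) * (1 - s * s) := by ring
          _ = 0 := by rw [hss]; ring
      · rw [Set.mem_singleton_iff] at hw
        subst hw
        rw [_root_.smul_apply, _root_.add_apply, _root_.smul_apply, h2, h4,
          if_neg (hρ0' j).symm]
        simp
      · rw [Set.mem_singleton_iff] at ha
        subst ha
        simp only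
        rw [map_smul, map_add, map_smul, h3, h4, if_neg (hρ0 i)]
        simp
      · simp only
        rw [h4, if_neg (hρρ i j)]
    obtain ⟨κ₁, hκ₁, e₁, e₁', p1, p2, p3, p4, p5, p6⟩ := key 1 (by norm_num) norm_one
      (fun i => 2 * i + 1) (fun i j h => by simp only at h; omega) (fun i => by omega)
    obtain ⟨κ₂, hκ₂, e₂, e₂', q1, q2, q3, q4, q5, q6⟩ := key (-1) (by norm_num)
      (by rw [norm_neg, norm_one]) (fun i => 2 * i + 2) (fun i j h => by simp only at h; omega)
      (fun i => by omega)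
    -- span facts
    have sub1 : Submodule.span 𝕜 (Set.range e₁) ≤ Submodule.span 𝕜 (Set.range (Sum.elim e₁ e₂)) := by
      refine Submodule.span_mono ?_
      rintro _ ⟨i, rfl⟩
      exact ⟨Sum.inl i, rfl⟩
    have sub2 : Submodule.span 𝕜 (Set.range e₂) ≤ Submodule.span 𝕜 (Set.range (Sum.elim e₁ e₂)) := by
      refine Submodule.span_mono ?_
      rintro _ ⟨i, rfl⟩
      exact ⟨Sum.inr i, rfl⟩
    have c2 : c * c * 2 = 1 := by
      rw [hcc]; norm_num
    have gen : ∀ s : 𝕜, c • (b + s • g 0) ∈ Submodule.span 𝕜 ({b} ∪ Set.range g) := by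
      intro s
      refine Submodule.smul_mem _ _ (Submodule.add_mem _ (Submodule.subset_span (Or.inl rfl))
        (Submodule.smul_mem _ _ (Submodule.subset_span (Or.inr ⟨0, rfl⟩))))
    have gen' : ∀ s : 𝕜, c • (b' + s • g' 0) ∈ Submodule.span 𝕜 ({b'} ∪ Set.range g') := by
      intro s
      refine Submodule.smul_mem _ _ (Submodule.add_mem _ (Submodule.subset_span (Or.inl rfl))
        (Submodule.smul_mem _ _ (Submodule.subset_span (Or.inr ⟨0, rfl⟩))))
    have big : ∀ (s : 𝕜) (ρ : ℕ → ℕ),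
        Submodule.span 𝕜 ({c • (b + s • g 0)} ∪ Set.range fun i => g (ρ i)) ≤
          Submodule.span 𝕜 ({b} ∪ Set.range g) := by
      intro s ρ
      rw [Submodule.span_le]
      rintro a (ha | ⟨i, rfl⟩)
      · rw [Set.mem_singleton_iff] at ha
        subst ha
        exact gen s
      · exact Submodule.subset_span (Or.inr ⟨_, rfl⟩)
    have big' : ∀ (s : 𝕜) (ρ : ℕ → ℕ),
        Submodule.span 𝕜 ({c • (b' + s • g' 0)} ∪ Set.range fun i => g' (ρ i)) ≤
          Submodule.span 𝕜 ({b'} ∪ Set.range g') := by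
      intro s ρ
      rw [Submodule.span_le]
      rintro a (ha | ⟨i, rfl⟩)
      · rw [Set.mem_singleton_iff] at ha
        subst ha
        exact gen' s
      · exact Submodule.subset_span (Or.inr ⟨_, rfl⟩)
    refine ⟨κ₁ ⊕ κ₂, inferInstance, Sum.elim e₁ e₂, Sum.elim e₁' e₂', ?_, ?_, ?_, ?_, ?_, ?_⟩
    · rintro (i | i) (j | j)
      · exact ⟨fun h => (p1 i j).1 (Sum.inl.inj h), fun h => (p1 i j).2 fun h' => h (by rw [h'])⟩
      · refine ⟨fun h => by simp at h, fun _ => ?_⟩
        exact span_annih (cross 1 (by norm_num) (fun i => 2 * i + 1) (fun i => 2 * i + 2)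
          (fun i => by omega) (fun i => by omega) (fun i j => by omega)) (p4 i) (q3 j)
      · refine ⟨fun h => by simp at h, fun _ => ?_⟩
        refine span_annih (cross (-1) (by norm_num) (fun i => 2 * i + 2) (fun i => 2 * i + 1)
          (fun i => by omega) (fun i => by omega) (fun i j => by omega)) (q4 i) ?_
        rw [neg_neg]
        exact p3 j
      · exact ⟨fun h => (q1 i j).1 (Sum.inr.inj h), fun h => (q1 i j).2 fun h' => h (by rw [h'])⟩
    · rintro (i | i)
      · exact p2 i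
      · exact q2 i
    · rintro (i | i)
      · exact big _ _ (p3 i)
      · exact big _ _ (q3 i)
    · rintro (i | i)
      · exact big' _ _ (p4 i)
      · exact big' _ _ (q4 i)
    · have e : b = c • (c • (b + (1 : 𝕜) • g 0)) + c • (c • (b + (-1 : 𝕜) • g 0)) := by
        rw [← smul_add, ← smul_add]
        have : b + (1 : 𝕜) • g 0 + (b + (-1 : 𝕜) • g 0) = (2 : 𝕜) • b := by
          rw [two_smul, one_smul, neg_one_smul]; abel
        rw [this, smul_smul, smul_smul, c2, one_smul]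
      rw [e]
      exact Submodule.add_mem _ (Submodule.smul_mem _ _ (sub1 p5))
        (Submodule.smul_mem _ _ (sub2 q5))
    · intro i
      rcases Nat.eq_zero_or_pos i with rfl | hi
      · have e : g 0 = c • (c • (b + (1 : 𝕜) • g 0)) - c • (c • (b + (-1 : 𝕜) • g 0)) := by
          rw [← smul_sub, ← smul_sub]
          have : b + (1 : 𝕜) • g 0 - (b + (-1 : 𝕜) • g 0) = (2 : 𝕜) • g 0 := by
            rw [two_smul, one_smul, neg_one_smul]; abel
          rw [this, smul_smul, smul_smul, c2, one_smul]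
        rw [e]
        exact Submodule.sub_mem _ (Submodule.smul_mem _ _ (sub1 p5))
          (Submodule.smul_mem _ _ (sub2 q5))
      · rcases Nat.even_or_odd' i with ⟨k, hk | hk⟩
        · obtain ⟨k', rfl⟩ : ∃ k', k = k' + 1 := ⟨k - 1, by omega⟩
          have : i = 2 * k' + 2 := by omega
          rw [this]
          exact sub2 (q6 k')
        · rw [hk]
          exact sub1 (p6 k)

end Pool.Agent.KS7_39.D49
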