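import Mathlib
import Pool.Agent.KS7_39.D49.EX3
import Pool.Agent.KS7_39.D49.EX4

set_option autoImplicit false

namespace Pool.Agent.KS7_39.D49

open Filter Topology Metric Finset

variable {𝕜 : Type} [RCLike 𝕜] {E : Type} [NormedAddCommGroup E] [NormedSpace 𝕜 E]

/-- Auerbach's lemma. -/
lemma auerbach (V : Type) [NormedAddCommGroup V] [NormedSpace 𝕜 V] [FiniteDimensional 𝕜 V] :
    ∃ b : Module.Basis (Fin (Module.finrank 𝕜 V)) 𝕜 V, (∀ i, ‖b i‖ ≤ 1) ∧
      ∀ i q, ‖b.coord i q‖ ≤ ‖q‖ := by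
  classical
  have : ProperSpace V := FiniteDimensional.proper 𝕜 V
  set r := Module.finrank 𝕜 V
  let b0 : Module.Basis (Fin r) 𝕜 V := Module.finBasis 𝕜 V
  let Kc : Set (Fin r → V) := Set.pi Set.univ fun _ => closedBall (0 : V) 1
  have hK : IsCompact Kc := isCompact_univ_pi fun _ => isCompact_closedBall _ _
  have hcont : Continuous fun u : Fin r → V => ‖b0.det u‖ := by
    have h1 : Continuous fun u : Fin r → V => b0.det u := by
      have h2 : ∀ u : Fin r → V, b0.det u = (b0.toMatrix u).det := fun u => b0.det_apply u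
      simp_rw [h2]
      refine Continuous.matrix_det ?_
      refine continuous_matrix fun i j => ?_
      have : Continuous fun q : V => b0.coord i q := (b0.coord i).continuous_of_finiteDimensional
      exact this.comp (continuous_apply j)
    exact h1.norm
  obtain ⟨u, hu, hmax⟩ := hK.exists_isMaxOn ⟨fun _ => 0, fun _ _ => by simp⟩ hcont.continuousOn
  -- a scaled basis shows that the maximum is positive
  have hpos : b0.det u ≠ 0 := by
    have hs : ∃ c : ℝ, 0 < c ∧ ∀ i, c * ‖b0 i‖ ≤ 1 := by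
      refine ⟨1 / (∑ i, ‖b0 i‖ + 1), by positivity, fun i => ?_⟩
      rw [one_div, inv_mul_le_iff₀ (by positivity), mul_one]
      exact (single_le_sum (f := fun i => ‖b0 i‖) (fun _ _ => norm_nonneg _) (mem_univ i)).trans
        (by linarith)
    obtain ⟨c, hc, hcb⟩ := hs
    have hmem : (fun i => (c : 𝕜) • b0 i) ∈ Kc := fun i _ => by
      rw [mem_closedBall, dist_zero_right, norm_smul, RCLike.norm_ofReal, abs_of_pos hc]
      exact hcb i
    have h1 := hmax hmem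
    have h2 : b0.det (fun i => (c : 𝕜) • b0 i) = (∏ _i : Fin r, (c : 𝕜)) * b0.det b0 :=
      b0.det.map_smul_univ (fun _ => (c : 𝕜)) b0
    simp only [Set.mem_ofPred_eq] at h1
    rw [h2, b0.det_self, mul_one] at h1
    have h3 : 0 < ‖∏ _i : Fin r, (c : 𝕜)‖ := by
      rw [norm_pos_iff]
      exact prod_ne_zero_iff.2 fun _ _ => by
        simpa using hc.ne'
    intro h0
    rw [h0, norm_zero] at h1
    linarith
  have hunit : IsUnit (b0.det u) := isUnit_iff_ne_zero.2 hpos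
  obtain ⟨hli, hsp⟩ := (b0.is_basis_iff_det).2 hunit
  let b : Module.Basis (Fin r) 𝕜 V := Module.Basis.mk hli hsp.ge
  have hb : ∀ i, b i = u i := fun i => by simp [b]
  have hun : ∀ i, ‖u i‖ ≤ 1 := fun i => by simpa using hu i (Set.mem_univ i)
  refine ⟨b, fun i => by rw [hb]; exact hun i, fun i q => ?_⟩
  -- Cramer's rule
  have hcr : ∀ q : V, b0.det (Function.update u i q) = b.coord i q * b0.det u := by
    intro q
    have e : q = ∑ j, b.coord j q • u j := by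
      conv_lhs => rw [← b.sum_repr q]
      exact sum_congr rfl fun j _ => by rw [hb]; rfl
    have h1 : b0.det (Function.update u i q) =
        ∑ j, b0.det (Function.update u i (b.coord j q • u j)) := by
      conv_lhs => rw [e]
      exact b0.det.toMultilinearMap.map_update_sum univ i (fun j => b.coord j q • u j) u
    rw [h1, sum_eq_single i]
    · have := b0.det.map_update_smul u i (b.coord i q) (u i)
      rw [this, Function.update_eq_self, smul_eq_mul]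
    · intro j _ hj
      rw [b0.det.map_update_smul u i (b.coord j q) (u j),
        b0.det.map_update_self u hj.symm, smul_zero]
    · intro h; exact absurd (mem_univ i) h
  by_cases hq : q = 0
  · rw [hq, map_zero, norm_zero, norm_zero]
  have hqn : 0 < ‖q‖ := norm_pos_iff.2 hq
  have hmem : Function.update u i (((‖q‖⁻¹ : ℝ) : 𝕜) • q) ∈ Kc := fun j _ => by
    rw [mem_closedBall, dist_zero_right]
    by_cases h : j = i
    · subst h
      rw [Function.update_self, norm_smul, RCLike.norm_ofReal, abs_of_pos (inv_pos.2 hqn),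
        inv_mul_cancel₀ hqn.ne']
    · rw [Function.update_of_ne h]
      exact hun j
  have h1 := hmax hmem
  simp only [Set.mem_ofPred_eq] at h1
  rw [hcr, norm_mul] at h1
  have h2 : ‖b.coord i (((‖q‖⁻¹ : ℝ) : 𝕜) • q)‖ ≤ 1 := by
    have h0 : 0 < ‖b0.det u‖ := norm_pos_iff.2 hpos
    by_contra hcon
    push Not at hcon
    nlinarith
  rw [map_smul, norm_smul, RCLike.norm_ofReal, abs_of_pos (inv_pos.2 hqn),
    inv_mul_le_iff₀ hqn, mul_one] at h2
  exact h2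

/-- the finite codimensional case -/
lemma main_fin (x : ℕ → E)
    (hfin : FiniteDimensional 𝕜 (E ⧸ cs (𝕜 := 𝕜) (Set.range x)))
    (f : ℕ → E →L[𝕜] 𝕜) (hf : ∀ i j, f i (x j) = if i = j then 1 else 0) (D : ℝ)
    (hD : ∀ n, ‖f n‖ ≤ D) :
    ∃ (y : Fin (Module.finrank 𝕜 (E ⧸ cs (𝕜 := 𝕜) (Set.range x))) → E) (F : ℕ → E →L[𝕜] 𝕜)
      (W : Fin (Module.finrank 𝕜 (E ⧸ cs (𝕜 := 𝕜) (Set.range x))) → E →L[𝕜] 𝕜),
      (∀ n m, F n (x m) = if n = m then 1 else 0) ∧ (∀ n j, F n (y j) = 0) ∧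
      (∀ i m, W i (x m) = 0) ∧ (∀ i j, (i = j → W i (y j) = 1) ∧ (i ≠ j → W i (y j) = 0)) ∧
      (∀ i, ‖y i‖ ≤ 2 ∧ ‖W i‖ ≤ 1) ∧
      (∀ n, ‖F n‖ ≤ (2 * Module.finrank 𝕜 (E ⧸ cs (𝕜 := 𝕜) (Set.range x)) + 1) * D) ∧
      cs (𝕜 := 𝕜) (Set.range x ∪ Set.range y) = ⊤ := by
  classical
  have hD0 : 0 ≤ D := (norm_nonneg _).trans (hD 0)
  set X := cs (𝕜 := 𝕜) (Set.range x) with hX
  have hXc : IsClosed (X : Set E) := cs_closed _
  set r := Module.finrank 𝕜 (E ⧸ X)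
  obtain ⟨b, hb1, hb2⟩ := auerbach (𝕜 := 𝕜) (E ⧸ X)
  choose y hy hyn using fun i => Submodule.Quotient.norm_mk_lt (b i) (zero_lt_one' ℝ)
  -- dual functionals
  have hW : ∀ i, ∃ w : E →L[𝕜] 𝕜, (∀ e, w e = b.coord i (X.mkQ e)) ∧ ‖w‖ ≤ 1 := by
    intro i
    refine ⟨LinearMap.mkContinuous ((b.coord i).comp X.mkQ) 1 fun e => ?_, fun _ => rfl,
      LinearMap.mkContinuous_norm_le _ zero_le_one _⟩
    rw [one_mul]
    exact (hb2 i _).trans (Submodule.Quotient.norm_mk_le X e)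
  choose W hW hWn using hW
  have hWx : ∀ i, ∀ e ∈ X, W i e = 0 := by
    intro i e he
    rw [hW]
    have : X.mkQ e = 0 := by
      rw [Submodule.mkQ_apply]; exact (Submodule.Quotient.mk_eq_zero X).2 he
    rw [this, map_zero]
  have hWy : ∀ i j, W i (y j) = if i = j then 1 else 0 := by
    intro i j
    rw [hW, Submodule.mkQ_apply, hy, Module.Basis.coord_apply, Module.Basis.repr_self,
      Finsupp.single_apply]
    exact if_congr eq_comm rfl rfl
  have hyn2 : ∀ i, ‖y i‖ ≤ 2 := fun i => by linarith [hyn i, hb1 i]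
  refine ⟨y, fun n => f n - ∑ j, f n (y j) • W j, W, fun n m => ?_, fun n j => ?_,
    fun i m => hWx i _ (subset_cs _ ⟨m, rfl⟩), fun i j => ⟨fun h => ?_, fun h => ?_⟩,
    fun i => ⟨hyn2 i, hWn i⟩, fun n => ?_, ?_⟩
  · rw [_root_.sub_apply, _root_.sum_apply, hf]
    rw [sum_eq_zero, sub_zero]
    intro j _
    rw [_root_.smul_apply, hWx j _ (subset_cs _ ⟨m, rfl⟩), smul_zero]
  · rw [_root_.sub_apply, _root_.sum_apply]
    simp_rw [_root_.smul_apply, hWy, smul_eq_mul, mul_ite, mul_one, mul_zero]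
    rw [sum_ite_eq']
    simp
  · rw [hWy, if_pos h]
  · rw [hWy, if_neg h]
  · refine (norm_sub_le _ _).trans ?_
    have h1 : ‖∑ j, f n (y j) • W j‖ ≤ ∑ _j : Fin r, 2 * D := by
      refine (norm_sum_le _ _).trans (sum_le_sum fun j _ => ?_)
      rw [norm_smul]
      have h2 : ‖f n (y j)‖ ≤ D * 2 := ((f n).le_of_opNorm_le (hD n) _).trans
        (mul_le_mul_of_nonneg_left (hyn2 j) hD0)
      calc ‖f n (y j)‖ * ‖W j‖ ≤ (D * 2) * 1 :=
            mul_le_mul h2 (hWn j) (norm_nonneg _) (by positivity)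
        _ = 2 * D := by ring
    rw [sum_const, card_univ, Fintype.card_fin, nsmul_eq_mul] at h1
    linarith [hD n]
  · rw [eq_top_iff]
    intro e _
    have hle : X ≤ cs (𝕜 := 𝕜) (Set.range x ∪ Set.range y) := cs_mono Set.subset_union_left
    have h1 : e - ∑ j, (b.repr (X.mkQ e) j) • y j ∈ X := by
      have h3 : X.mkQ (e - ∑ j, (b.repr (X.mkQ e) j) • y j) = 0 := by
        rw [map_sub, map_sum]
        have hy' : ∀ j, X.mkQ (y j) = b j := fun j => hy j
        simp_rw [map_smul, hy']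
        rw [b.sum_repr, sub_self]
      rw [Submodule.mkQ_apply] at h3
      exact (Submodule.Quotient.mk_eq_zero X).1 h3
    have h2 : e = (e - ∑ j, (b.repr (X.mkQ e) j) • y j) + ∑ j, (b.repr (X.mkQ e) j) • y j := by
      rw [sub_add_cancel]
    rw [h2]
    exact Submodule.add_mem _ (hle h1) (Submodule.sum_mem _ fun j _ =>
      Submodule.smul_mem _ _ (subset_cs _ (Or.inr ⟨j, rfl⟩)))

/-- `unmixed`, rescaled -/
lemma unmixed3 (x : ℕ → E) (C : ℝ) (hC : ∀ n, ‖x n‖ ≤ C)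
    (hinf : ¬ FiniteDimensional 𝕜 (E ⧸ cs (𝕜 := 𝕜) (Set.range x)))
    (f : ℕ → E →L[𝕜] 𝕜) (hf : ∀ i j, f i (x j) = if i = j then 1 else 0) (D : ℝ)
    (hD : ∀ n, ‖f n‖ ≤ D) (hf0 : ∀ z, Tendsto (fun n => f n z) atTop (𝓝 0)) (z : ℕ → E) :
    ∃ (y : ℕ → E) (v : ℕ → E →L[𝕜] 𝕜) (F : ℕ → E →L[𝕜] 𝕜),
      (∀ i j, v i (y j) = if i = j then 1 else 0) ∧ (∀ i m, v i (x m) = 0) ∧
      (∀ i, ‖y (2 * i + 1)‖ ≤ 3 ∧ ‖v (2 * i + 1)‖ ≤ 3) ∧
      (∀ k, z k ∈ cs (𝕜 := 𝕜) (Set.range x ∪ Set.range y)) ∧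
      (∀ n m, F n (x m) = if n = m then 1 else 0) ∧ (∀ n j, F n (y j) = 0) ∧
      (∀ n, ‖F n‖ ≤ D + (2 + 9 * D)) := by
  classical
  obtain ⟨y, v, F, hv, hvx, hgood, hzc, hFx, hFy, hFn⟩ := unmixed x C hC hinf f hf D hD hf0 z
  have h30 : (3 : 𝕜) ≠ 0 := by norm_num
  have h3n : ‖(3 : 𝕜)‖ = 3 := by simpa using RCLike.norm_natCast (K := 𝕜) 3
  refine ⟨fun i => (3 : 𝕜)⁻¹ • y i, fun i => (3 : 𝕜) • v i, F, fun i j => ?_, fun i m => ?_,
    fun i => ⟨?_, ?_⟩, fun k => ?_, hFx, fun n j => ?_, hFn⟩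
  · rw [_root_.smul_apply, map_smul, smul_smul, mul_inv_cancel₀ h30, one_smul, hv]
  · rw [_root_.smul_apply, hvx, smul_zero]
  · rw [norm_smul, norm_inv, h3n]
    linarith [(hgood i).1]
  · rw [norm_smul, h3n]
    linarith [(hgood i).2]
  · refine cs_le (cs_closed _) ?_ (hzc k)
    rintro a (ha | ⟨j, rfl⟩)
    · exact subset_cs _ (Or.inl ha)
    · have e : y j = (3 : 𝕜) • ((3 : 𝕜)⁻¹ • y j) := by
        rw [smul_smul, mul_inv_cancel₀ h30, one_smul]
      rw [e]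
      exact Submodule.smul_mem _ _ (subset_cs _ (Or.inr ⟨j, rfl⟩))
  · rw [map_smul, hFy, smul_zero]

/-- the infinite codimensional case -/
lemma main_inf [TopologicalSpace.SeparableSpace E] (x : ℕ → E) (C : ℝ) (hC : ∀ n, ‖x n‖ ≤ C)
    (hinf : ¬ FiniteDimensional 𝕜 (E ⧸ cs (𝕜 := 𝕜) (Set.range x)))
    (f : ℕ → E →L[𝕜] 𝕜) (hf : ∀ i j, f i (x j) = if i = j then 1 else 0) (D : ℝ)
    (hD : ∀ n, ‖f n‖ ≤ D) :
    ∃ (ι : Type) (_ : Countable ι) (y : ι → E) (F : ℕ → E →L[𝕜] 𝕜)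
      (W : ι → E →L[𝕜] 𝕜),
      (∀ n m, F n (x m) = if n = m then 1 else 0) ∧ (∀ n j, F n (y j) = 0) ∧
      (∀ i m, W i (x m) = 0) ∧ (∀ i j, (i = j → W i (y j) = 1) ∧ (i ≠ j → W i (y j) = 0)) ∧
      (∀ i, ‖y i‖ ≤ 12 ∧ ‖W i‖ ≤ 12) ∧ (∀ n, ‖F n‖ ≤ 20 * D + 2) ∧
      cs (𝕜 := 𝕜) (Set.range x ∪ Set.range y) = ⊤ := by
  classical
  have hD0 : 0 ≤ D := (norm_nonneg _).trans (hD 0)
  obtain ⟨h, hh, hhD, hh0⟩ := exists_wnull x f hf D hD
  obtain ⟨z, hz⟩ := TopologicalSpace.exists_dense_seq E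
  obtain ⟨y, v, F, hv, hvx, hgood, hzc, hFx, hFy, hFn⟩ :=
    unmixed3 x C hC hinf h hh (2 * D) hhD hh0 z
  -- mixing the rows
  have hrow : ∀ k : ℕ, ∃ (κ : Type) (_ : Countable κ) (e : κ → E) (e' : κ → E →L[𝕜] 𝕜),
        (∀ i j, (i = j → e' i (e j) = 1) ∧ (i ≠ j → e' i (e j) = 0)) ∧
        (∀ i, ‖e i‖ ≤ 4 * 3 ∧ ‖e' i‖ ≤ 4 * 3) ∧
        (∀ i, e i ∈ Submodule.span 𝕜 ({y (2 * k)} ∪ Set.range fun i => y (2 * Nat.pair k i + 1))) ∧
        (∀ i, e' i ∈ Submodule.span 𝕜 ({v (2 * k)} ∪ Set.range fun i => v (2 * Nat.pair k i + 1))) ∧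
        y (2 * k) ∈ Submodule.span 𝕜 (Set.range e) ∧
        ∀ i, y (2 * Nat.pair k i + 1) ∈ Submodule.span 𝕜 (Set.range e) := by
    intro k
    obtain ⟨n, hn⟩ := pow_unbounded_of_one_lt (max ‖y (2 * k)‖ ‖v (2 * k)‖)
      (by norm_num : (1 : ℝ) < 11 / 10)
    refine mix 3 (by norm_num) n (max ‖y (2 * k)‖ ‖v (2 * k)‖) ?_ (y (2 * k)) (v (2 * k))
      (fun i => y (2 * Nat.pair k i + 1)) (fun i => v (2 * Nat.pair k i + 1))
      (le_max_left _ _) (le_max_right _ _)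
      (fun i => hgood _) ?_ ?_ ?_ ?_
    · have : (0 : ℝ) < (11 / 10) ^ n := by positivity
      linarith
    · rw [hv, if_pos rfl]
    · intro i
      rw [hv, if_neg (by omega)]
    · intro i
      rw [hv, if_neg (by omega)]
    · intro i j
      rw [hv]
      refine if_congr ⟨fun h => ?_, fun h => by rw [h]⟩ rfl rfl
      have h1 : Nat.pair k i = Nat.pair k j := by omega
      exact (Nat.pair_eq_pair.1 h1).2
  choose κ hκ e e' h1 h2 h3 h4 h5 h6 using hrow
  -- cross annihilation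
  have hcross : ∀ k k' : ℕ, k ≠ k' →
      ∀ w ∈ ({v (2 * k)} ∪ Set.range fun i => v (2 * Nat.pair k i + 1) : Set (E →L[𝕜] 𝕜)),
      ∀ a ∈ ({y (2 * k')} ∪ Set.range fun i => y (2 * Nat.pair k' i + 1) : Set E), w a = 0 := by
    intro k k' hkk w hw a ha
    rcases hw with hw | ⟨i, rfl⟩ <;> rcases ha with ha | ⟨j, rfl⟩
    · rw [Set.mem_singleton_iff] at hw ha
      subst hw; subst ha
      rw [hv, if_neg (by omega)]
    · rw [Set.mem_singleton_iff] at hw
      subst hw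
      simp only
      rw [hv, if_neg (by omega)]
    · rw [Set.mem_singleton_iff] at ha
      subst ha
      simp only
      rw [hv, if_neg (by omega)]
    · simp only
      rw [hv, if_neg]
      intro h
      have h1 : Nat.pair k i = Nat.pair k' j := by omega
      exact hkk (Nat.pair_eq_pair.1 h1).1
  have hvspan : ∀ k, ∀ w ∈ ({v (2 * k)} ∪ Set.range fun i => v (2 * Nat.pair k i + 1) :
      Set (E →L[𝕜] 𝕜)), ∀ a ∈ Set.range x, w a = 0 := by
    rintro k w hw a ⟨m, rfl⟩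
    rcases hw with hw | ⟨i, rfl⟩
    · rw [Set.mem_singleton_iff] at hw
      subst hw
      exact hvx _ _
    · exact hvx _ _
  have hyspan : ∀ n k, ∀ w ∈ ({F n} : Set (E →L[𝕜] 𝕜)),
      ∀ a ∈ ({y (2 * k)} ∪ Set.range fun i => y (2 * Nat.pair k i + 1) : Set E), w a = 0 := by
    intro n k w hw a ha
    rw [Set.mem_singleton_iff] at hw
    subst hw
    rcases ha with ha | ⟨i, rfl⟩
    · rw [Set.mem_singleton_iff] at ha
      subst ha
      exact hFy _ _
    · exact hFy _ _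
  have hcount : ∀ k, Countable (κ k) := hκ
  refine ⟨Σ k, κ k, inferInstance, fun i => e i.1 i.2, F,
    fun i => e' i.1 i.2, hFx, fun n j => ?_, fun i m => ?_, ?_, fun i => ⟨?_, ?_⟩, fun n => ?_, ?_⟩
  · exact span_annih (hyspan n j.1) (Submodule.subset_span rfl) (h3 j.1 j.2)
  · exact span_annih (hvspan i.1) (h4 i.1 i.2) (Submodule.subset_span ⟨m, rfl⟩)
  · rintro ⟨k, i⟩ ⟨k', j⟩
    by_cases hkk : k = k'
    · subst hkk
      refine ⟨fun h => (h1 k i j).1 ?_, fun h => (h1 k i j).2 fun h' => h (by rw [h'])⟩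
      simpa using h
    · refine ⟨fun h => absurd (congrArg Sigma.fst h) hkk, fun _ => ?_⟩
      exact span_annih (hcross k k' hkk) (h4 k i) (h3 k' j)
  · exact (h2 i.1 i.2).1.trans (by norm_num)
  · exact (h2 i.1 i.2).2.trans (by norm_num)
  · exact (hFn n).trans (by linarith)
  · set T := cs (𝕜 := 𝕜) (Set.range x ∪ Set.range fun i : Σ k, κ k => e i.1 i.2) with hT
    have hrowT : ∀ k, Submodule.span 𝕜 (Set.range (e k)) ≤ T := by
      intro k
      rw [Submodule.span_le]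
      rintro _ ⟨i, rfl⟩
      exact subset_cs _ (Or.inr ⟨⟨k, i⟩, rfl⟩)
    have hyT : ∀ j, y j ∈ T := by
      intro j
      rcases Nat.even_or_odd' j with ⟨k, hk | hk⟩
      · rw [hk]; exact hrowT k (h5 k)
      · rw [hk, ← Nat.pair_unpair k]
        exact hrowT _ (h6 _ _)
    have hle : cs (𝕜 := 𝕜) (Set.range x ∪ Set.range y) ≤ T := by
      refine cs_le (cs_closed _) ?_
      rintro a (ha | ⟨j, rfl⟩)
      · exact subset_cs _ (Or.inl ha)
      · exact hyT j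
    rw [eq_top_iff]
    intro a _
    have hcl : IsClosed (T : Set E) := cs_closed _
    have h7 : closure (Set.range z) ⊆ (T : Set E) := by
      refine closure_minimal ?_ hcl
      rintro _ ⟨k, rfl⟩
      exact hle (hzc k)
    rw [hz.closure_range] at h7
    exact h7 trivial

end Pool.Agent.KS7_39.D49
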